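import Mathlib

/-!
# MP_37fea8_co, definitions (FIXED, do not edit)

THEOREM.  For every decomposition of `K_50` into seven copies of the Hoffman-Singleton graph the group of
all permutations of the vertices which permute the seven copies has order `1`, `5` or `7`.

A decomposition is given by a colour function `c : V → V → Fin 7` (`c x y` is the copy which contains the
edge `x y`; the values `c x x` are irrelevant); `Moore c` collects the facts that we need: every colour
class is a regular graph of degree `7` without triangles in which two different non-adjacent vertices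
have exactly one common neighbour.
-/

set_option autoImplicit false

namespace Pool.Agent.Work.MP_37fea8_co

/-- The Hoffman-Singleton graph in the pentagon and pentagram labelling: `(false, j, i)` is vertex
`i` of the pentagon `P_j`, and `(true, k, i)` is vertex `i` of the pentagram `Q_k`. -/
def HS : SimpleGraph (Bool × ZMod 5 × ZMod 5) :=
  SimpleGraph.fromRel (fun x y : Bool × ZMod 5 × ZMod 5 =>
    (x.1 = false ∧ y.1 = false ∧ x.2.1 = y.2.1 ∧ y.2.2 = x.2.2 + 1) ∨
    (x.1 = true ∧ y.1 = true ∧ x.2.1 = y.2.1 ∧ y.2.2 = x.2.2 + 2) ∨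
    (x.1 = false ∧ y.1 = true ∧ y.2.2 = x.2.2 + x.2.1 * y.2.1))

/-- A decomposition of `K_50` into seven copies of the Hoffman-Singleton graph, in the form of the
frozen statement. -/
structure IsDec (G : Fin 7 → SimpleGraph (Fin 50)) : Prop where
  iso : ∀ i, Nonempty (HS ≃g G i)
  disj : ∀ i j, i ≠ j → Disjoint (G i) (G j)
  cov : (⨆ i, G i) = ⊤

/-- The automorphism group of a family of graphs on `Fin 50`: all permutations of the vertices
which permute the graphs of the family. -/
def AutD (G : Fin 7 → SimpleGraph (Fin 50)) : Subgroup (Equiv.Perm (Fin 50)) where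
  carrier := {g | ∃ s : Equiv.Perm (Fin 7), ∀ i x y, (G (s i)).Adj (g x) (g y) ↔ (G i).Adj x y}
  one_mem' := ⟨1, fun _ _ _ => Iff.rfl⟩
  mul_mem' := by
    rintro g h ⟨s, hs⟩ ⟨t, ht⟩
    exact ⟨s * t, fun i x y => (hs (t i) (h x) (h y)).trans (ht i x y)⟩
  inv_mem' := by
    rintro g ⟨s, hs⟩
    refine ⟨s⁻¹, fun i x y => ?_⟩
    have h := hs (s⁻¹ i) (g⁻¹ x) (g⁻¹ y)
    have h1 : s (s⁻¹ i) = i := s.apply_symm_apply i
    have h2 : ∀ x, g (g⁻¹ x) = x := g.apply_symm_apply
    rw [h1, h2, h2] at h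
    exact h.symm

section

variable {V : Type} [Fintype V] [DecidableEq V]

/-- A colouring of the pairs of a set with `50` elements by seven colours such that every colour
class is a Moore graph of degree `7`. -/
structure Moore (c : V → V → Fin 7) : Prop where
  card : Fintype.card V = 50
  symm : ∀ x y, c x y = c y x
  deg : ∀ i x, (Finset.univ.filter fun y => y ≠ x ∧ c x y = i).card = 7
  tri : ∀ x y z, x ≠ y → y ≠ z → x ≠ z → c x y = c y z → c x y ≠ c x z
  com : ∀ i x y, x ≠ y → c x y ≠ i → ∃! z, z ≠ x ∧ z ≠ y ∧ c x z = i ∧ c y z = i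

/-- The neighbours of `x` in the colour `i`. -/
def nb (c : V → V → Fin 7) (i : Fin 7) (x : V) : Finset V :=
  Finset.univ.filter fun y => y ≠ x ∧ c x y = i

/-- The fixed points of a permutation. -/
def fx {α : Type} [Fintype α] [DecidableEq α] (g : Equiv.Perm α) : Finset α :=
  Finset.univ.filter fun x => g x = x

/-- `g` permutes the colour classes according to `s`. -/
def IsAut (c : V → V → Fin 7) (g : Equiv.Perm V) (s : Equiv.Perm (Fin 7)) : Prop :=
  ∀ x y, x ≠ y → c (g x) (g y) = s (c x y)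

/-- The group `H` acts on the vertices and on the colours, compatibly, and faithfully on the vertices. -/
structure Act (c : V → V → Fin 7) (H : Type) [Group H] [MulAction H V] [MulAction H (Fin 7)] :
    Prop where
  act : ∀ (h : H) (x y : V), x ≠ y → c (h • x) (h • y) = h • c x y
  faith : ∀ h : H, (∀ x : V, h • x = x) → h = 1

/-- The group `K` acts freely on the vertices. -/
def Free (V K : Type) [Group K] [MulAction K V] : Prop := ∀ (k : K) (x : V), k • x = x → k = 1

/-- The group `K` preserves the colour `i`. -/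
def Keeps (c : V → V → Fin 7) (K : Type) [Group K] [MulAction K V] (i : Fin 7) : Prop :=
  ∀ (k : K) (x y : V), x ≠ y → (c (k • x) (k • y) = i ↔ c x y = i)

/-- The number of `k` such that `k • y` is a neighbour of `x` in the colour `i`. -/
def bb (c : V → V → Fin 7) (K : Type) [Group K] [Fintype K] [MulAction K V] (i : Fin 7)
    (x y : V) : ℕ :=
  (Finset.univ.filter fun k : K => k • y ≠ x ∧ c x (k • y) = i).card

/-- The adjacency matrix of the colour `i`. -/
def adjM (c : V → V → Fin 7) (i : Fin 7) : Matrix V V ℚ :=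
  Matrix.of fun x y => if y ∈ nb c i x then 1 else 0

/-- The all-one matrix. -/
def allOne (V : Type) : Matrix V V ℚ := Matrix.of fun _ _ => 1

/-- The structure of a group `H` of order `25` which does not fix all colours: `K` is the subgroup of
order `5` which fixes all colours, `i₁`, `i₂` are the two colours fixed by `H`. -/
structure StB (c : V → V → Fin 7) (H : Type) [Group H] [MulAction H V] [MulAction H (Fin 7)]
    (K : Subgroup H) (i₁ i₂ : Fin 7) : Prop where
  act : Act c H
  comm : ∀ a b : H, a * b = b * a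
  cardH : Nat.card H = 25
  cardK : Nat.card K = 5
  fixK : ∀ k ∈ K, ∀ i : Fin 7, k • i = i
  freeK : ∀ k ∈ K, ∀ x : V, k • x = x → k = 1
  ne : i₁ ≠ i₂
  fix₁ : ∀ h : H, h • i₁ = i₁
  fix₂ : ∀ h : H, h • i₂ = i₂
  pow5 : ∀ h : H, h ^ 5 ∈ K
  gen : ∀ g : H, g ∉ K → ∀ h : H, ∃ m : ℕ, m < 5 ∧ ∃ k ∈ K, h = k * g ^ m
  trans : ∀ g : H, g ∉ K → ∀ j j' : Fin 7, j ≠ i₁ → j ≠ i₂ → j' ≠ i₁ → j' ≠ i₂ →
    ∃ m : ℕ, m < 5 ∧ g ^ m • j = j'

/-- The structure of a group `H` of order `49`: it fixes the vertex `o` and acts regularly on the other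
vertices; `k` has order `7` and fixes all colours, `t` permutes the colours cyclically. -/
structure StC (c : V → V → Fin 7) (H : Type) [Group H] [MulAction H V] [MulAction H (Fin 7)]
    (o : V) (k t : H) : Prop where
  act : Act c H
  comm : ∀ a b : H, a * b = b * a
  fixo : ∀ h : H, h • o = o
  free : ∀ (h : H) (x : V), x ≠ o → h • x = x → h = 1
  reg : ∀ x y : V, x ≠ o → y ≠ o → ∃ h : H, h • x = y
  k7 : k ^ 7 = 1
  k1 : k ≠ 1
  kcol : ∀ i : Fin 7, k • i = i
  gen : ∀ h : H, ∃ a m : ℕ, a < 7 ∧ m < 7 ∧ h = k ^ m * t ^ a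
  t7 : ∃ m : ℕ, t ^ 7 = k ^ m
  tcol : ∀ i j : Fin 7, ∃! a : Fin 7, t ^ (a : ℕ) • i = j

/-- The moving colours. -/
def mov (i₁ i₂ : Fin 7) : Finset (Fin 7) := Finset.univ.filter fun j => j ≠ i₁ ∧ j ≠ i₂

/-- The automorphism group of the colouring, as a group of pairs. -/
def Gam (c : V → V → Fin 7) : Subgroup (Equiv.Perm V × Equiv.Perm (Fin 7)) where
  carrier := {p | ∀ x y, x ≠ y → c (p.1 x) (p.1 y) = p.2 (c x y)}
  one_mem' := fun _ _ _ => rfl
  mul_mem' := by
    rintro p q hp hq x y hxy
    show c (p.1 (q.1 x)) (p.1 (q.1 y)) = p.2 (q.2 (c x y))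
    rw [hp _ _ fun h => hxy (q.1.injective h), hq x y hxy]
  inv_mem' := by
    rintro p hp x y hxy
    show c (p.1⁻¹ x) (p.1⁻¹ y) = p.2⁻¹ (c x y)
    have h := hp (p.1⁻¹ x) (p.1⁻¹ y) fun h => hxy (p.1⁻¹.injective h)
    have h1 : ∀ x, p.1 (p.1⁻¹ x) = x := p.1.apply_symm_apply
    rw [h1, h1] at h
    rw [h]
    exact (p.2.symm_apply_apply _).symm

instance gamActV (c : V → V → Fin 7) : MulAction (Gam c) V where
  smul p x := p.1.1 x
  one_smul _ := rfl
  mul_smul _ _ _ := rfl

instance gamActC (c : V → V → Fin 7) : MulAction (Gam c) (Fin 7) where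
  smul p x := p.1.2 x
  one_smul _ := rfl
  mul_smul _ _ _ := rfl

end

/-- The system of equations for the quotient of a moving colour by `K` when a group of order `25`
acts freely: `U`, `W`, `C` are the blocks of a symmetric `10 × 10` matrix `B` with `B² + B = 6 + 5 J`,
with zero diagonal and with given cyclic sums. -/
structure Sys25 (U W C : Fin 5 → Fin 5 → ℕ) : Prop where
  symU : ∀ r s, U r s = U s r
  symW : ∀ r s, W r s = W s r
  diagU : ∀ r, U r r = 0
  diagW : ∀ r, W r r = 0
  rowU : ∀ r, ∑ s, U r s + ∑ s, C r s = 7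
  rowW : ∀ s, ∑ r, C r s + ∑ r, W r s = 7
  gramU : ∀ r s, ∑ t, U r t * U s t + ∑ t, C r t * C s t + U r s = if r = s then 11 else 5
  gramW : ∀ r s, ∑ t, C t r * C t s + ∑ t, W r t * W s t + W r s = if r = s then 11 else 5
  gramC : ∀ r s, ∑ t, U r t * C t s + ∑ t, C r t * W t s + C r s = 5
  cycU : ∀ d : Fin 5, d ≠ 0 → ∑ r, U r (r + d) = 5
  cycW : ∀ d : Fin 5, d ≠ 0 → ∑ r, W r (r + d) = 5
  cycC : ∀ d : Fin 5, ∑ r, C r (r + d) = 3

/-! ### The Hoffman-Singleton graph on the codes `0, ..., 49` -/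

/-- Vertex of the Hoffman-Singleton graph with a given code. -/
def dec (n : ℕ) : Bool × ZMod 5 × ZMod 5 :=
  (Nat.ble 25 n, ((n / 5 : ℕ) : ZMod 5), ((n % 5 : ℕ) : ZMod 5))

/-- Adjacency of codes, as a Boolean on natural numbers. -/
def adjB (m n : ℕ) : Bool :=
  let a := m % 5
  let b := n % 5
  let j := (m / 5) % 5
  let k := (n / 5) % 5
  bif Nat.ble 25 m then
    (bif Nat.ble 25 n then (Nat.beq j k && (Nat.beq b ((a + 2) % 5) || Nat.beq a ((b + 2) % 5)))
      else Nat.beq a ((b + k * j) % 5))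
  else
    (bif Nat.ble 25 n then Nat.beq b ((a + j * k) % 5)
      else (Nat.beq j k && (Nat.beq b ((a + 1) % 5) || Nat.beq a ((b + 1) % 5))))

/-- Seven orbits of length `7` of an automorphism of order `7` which fixes the code `0`; the first
one consists of the neighbours of `0`. -/
def orb : List (List ℕ) :=
  [[1, 4, 25, 30, 35, 40, 45], [2, 29, 5, 13, 38, 7, 48], [3, 27, 9, 37, 14, 6, 46],
    [8, 16, 47, 26, 49, 28, 17], [10, 32, 19, 43, 12, 36, 39], [11, 23, 18, 41, 34, 15, 21],
    [20, 33, 22, 42, 24, 31, 44]]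

/-- The code of the point `k` of the orbit `r`. -/
def oc (r k : ℕ) : ℕ := (orb.getD (r % 7) []).getD (k % 7) 0

/-- The table of the differences: `d ∈ dt r s` iff `oc r k` is adjacent to `oc s (k + d)`. -/
def dt : List (List (List ℕ)) :=
  [[[], [0], [6], [3], [5], [3], [5]], [[0], [], [0, 1, 3], [2], [1], [], [3]],
    [[1], [0, 4, 6], [], [5], [3], [], [1]], [[4], [5], [2], [2, 5], [], [3, 4], []],
    [[2], [6], [4], [], [1, 6], [0, 3], []], [[4], [], [], [3, 4], [0, 4], [], [1, 3]],
    [[2], [4], [6], [], [], [4, 6], [3, 4]]]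

/-- The entry `r s` of the table. -/
def dd (r s : ℕ) : List ℕ := (dt.getD r []).getD s []

/-- The automorphism of order `7` on the codes. -/
def nxt : List ℕ :=
  [0, 4, 29, 27, 25, 13, 46, 48, 16, 37, 32, 23, 36, 38, 6, 21, 47, 8, 41, 43, 33, 11, 42, 18, 31,
    30, 49, 9, 17, 5, 35, 44, 19, 22, 15, 40, 39, 14, 7, 10, 45, 34, 24, 12, 20, 1, 3, 26, 2, 28]

/-- The group of the automorphisms of the graph on the codes. -/
def AutA : Subgroup (Equiv.Perm (Fin 50)) where
  carrier := {a | ∀ m n : Fin 50, adjB (a m) (a n) = adjB m n}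
  one_mem' := fun _ _ => rfl
  mul_mem' := by
    intro a b ha hb m n
    exact (ha (b m) (b n)).trans (hb m n)
  inv_mem' := by
    intro a ha m n
    have h := ha (a⁻¹ m) (a⁻¹ n)
    have h1 : ∀ x, a (a⁻¹ x) = x := a.apply_symm_apply
    rw [h1, h1] at h
    exact h.symm

end Pool.Agent.Work.MP_37fea8_co
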